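import Pool.Agent.L0h11.FP.Stm

/-!
# KER: a kernel vector over `k[s]` from the kernels at all `s`
-/

set_option autoImplicit false

namespace Pool.Agent.L0h88.FP

open Polynomial Finset Pool.Agent.L0h11.FP

/-- **KER** -/
theorem KER : St_KER := by
  classical
  intro k _ _ ι κ _ _ _ _ M hM
  by_cases h : ∃ w : ι → k[X], M.mulVec w = 0 ∧ w ≠ 0
  · obtain ⟨w, hw, hw0⟩ := h
    have hS : (univ.filter fun i => w i ≠ 0).Nonempty := by
      by_contra h0
      rw [not_nonempty_iff_eq_empty, filter_eq_empty_iff] at h0
      apply hw0
      funext i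
      have := h0 (mem_univ i)
      simpa using this
    obtain ⟨i0, hi0, hmin⟩ := exists_min_image _ (fun i => (w i).natTrailingDegree) hS
    have hi0' := (mem_filter.1 hi0).2
    have hdvd : ∀ i, X ^ (w i0).natTrailingDegree ∣ w i := by
      intro i
      by_cases hi : w i = 0
      · rw [hi]
        exact dvd_zero _
      · rw [X_pow_dvd_iff]
        intro d hd
        exact coeff_eq_zero_of_lt_natTrailingDegree (lt_of_lt_of_le hd (hmin i (mem_filter.2 ⟨mem_univ _, hi⟩)))
    choose w' hw' using hdvd
    refine ⟨w', ?_, i0, ?_⟩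
    · have h1 : w = (X ^ (w i0).natTrailingDegree : k[X]) • w' := by
        funext i
        rw [Pi.smul_apply, smul_eq_mul]
        exact hw' i
      have h2 : M.mulVec ((X ^ (w i0).natTrailingDegree : k[X]) • w') = 0 := by
        rw [← h1, hw]
      rw [Matrix.mulVec_smul] at h2
      rcases smul_eq_zero.1 h2 with h3 | h3
      · exact absurd h3 (pow_ne_zero _ X_ne_zero)
      · exact h3
    · have h1 : (w i0).coeff (0 + (w i0).natTrailingDegree) = (w' i0).coeff 0 := by
        have h2 := congrArg (fun z : k[X] => z.coeff (0 + (w i0).natTrailingDegree)) (hw' i0)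
        exact h2.trans (coeff_X_pow_mul _ _ _)
      rw [← h1, zero_add]
      exact trailingCoeff_nonzero_iff_nonzero.2 hi0'
  · exfalso
    have h0 : ∀ w : ι → k[X], M.mulVec w = 0 → w = 0 := fun w hw => by
      by_contra h1
      exact h ⟨w, hw, h1⟩
    let K := FractionRing k[X]
    have hinj : Function.Injective (algebraMap k[X] K) := IsFractionRing.injective k[X] K
    let M' : Matrix κ ι K := M.map (algebraMap k[X] K)
    have hker : LinearMap.ker (Matrix.toLin' M') = ⊥ := by
      rw [LinearMap.ker_eq_bot']
      intro v hv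
      rw [Matrix.toLin'_apply] at hv
      obtain ⟨b, hb⟩ := IsLocalization.exist_integer_multiples (nonZeroDivisors k[X]) (univ : Finset ι) v
      have hb' : ∀ i, ∃ u : k[X], algebraMap k[X] K u = (b : k[X]) • v i := fun i => hb i (mem_univ i)
      choose u hu using hb'
      have h1 : M.mulVec u = 0 := by
        funext j
        apply hinj
        have h2 := congrFun hv j
        rw [Pi.zero_apply] at h2
        rw [Pi.zero_apply, map_zero]
        have h3 : algebraMap k[X] K (M.mulVec u j) = (b : k[X]) • (M'.mulVec v j) := by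
          unfold Matrix.mulVec dotProduct
          rw [map_sum, smul_sum]
          refine sum_congr rfl fun i _ => ?_
          rw [map_mul, hu i, mul_smul_comm]
          rfl
        rw [h3, h2, smul_zero]
      have h2 := h0 u h1
      funext i
      have h3 := hu i
      rw [h2, Pi.zero_apply, map_zero, Algebra.smul_def] at h3
      rcases mul_eq_zero.1 h3.symm with h4 | h4
      · exact absurd (hinj (h4.trans (map_zero _).symm)) (nonZeroDivisors.coe_ne_zero b)
      · exact h4
    obtain ⟨g, hg⟩ := LinearMap.exists_leftInverse_of_injective (Matrix.toLin' M') hker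
    have hB' : LinearMap.toMatrix' g * M' = 1 := by
      have h1 : LinearMap.toMatrix' (g ∘ₗ Matrix.toLin' M') = 1 := by
        rw [hg, LinearMap.toMatrix'_id]
      rwa [LinearMap.toMatrix'_comp, LinearMap.toMatrix'_toLin'] at h1
    obtain ⟨b, hb⟩ := IsLocalization.exist_integer_multiples (nonZeroDivisors k[X]) (univ : Finset (ι × κ))
      (fun p => LinearMap.toMatrix' g p.1 p.2)
    have hb' : ∀ i j, ∃ u : k[X], algebraMap k[X] K u = (b : k[X]) • LinearMap.toMatrix' g i j :=
      fun i j => hb (i, j) (mem_univ (i, j))
    choose B hB using hb'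
    have hBM : (Matrix.of B) * M = (b : k[X]) • (1 : Matrix ι ι k[X]) := by
      ext1 i i'
      apply hinj
      have h1 := congrFun (congrFun hB' i) i'
      have h3 : algebraMap k[X] K ((Matrix.of B * M) i i') = (b : k[X]) • ((LinearMap.toMatrix' g * M') i i') := by
        rw [Matrix.mul_apply, Matrix.mul_apply, map_sum, smul_sum]
        refine sum_congr rfl fun j _ => ?_
        rw [map_mul, Matrix.of_apply, hB i j, smul_mul_assoc]
        rfl
      rw [h3, h1, Matrix.smul_apply, Matrix.one_apply, Matrix.one_apply, smul_eq_mul, Algebra.smul_def, map_mul]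
      split_ifs <;> simp
    obtain ⟨s, hs⟩ : ∃ s : k, eval s (b : k[X]) ≠ 0 := by
      by_contra h1
      push Not at h1
      exact nonZeroDivisors.coe_ne_zero b (Polynomial.funext fun s => by rw [h1 s, eval_zero])
    apply hM s
    have h1 : (Matrix.of B).map (eval s) * M.map (eval s) = (eval s (b : k[X])) • (1 : Matrix ι ι k) := by
      ext1 i i'
      have h2 := congrArg (eval s) (congrFun (congrFun hBM i) i')
      rw [Matrix.mul_apply, eval_finsetSum, Matrix.smul_apply, smul_eq_mul, eval_mul] at h2
      rw [Matrix.mul_apply, Matrix.smul_apply, smul_eq_mul]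
      have h3 : eval s ((1 : Matrix ι ι k[X]) i i') = (1 : Matrix ι ι k) i i' := by
        rw [Matrix.one_apply, Matrix.one_apply]
        split_ifs <;> simp
      rw [h3] at h2
      rw [← h2]
      refine sum_congr rfl fun j _ => ?_
      rw [eval_mul]
      rfl
    intro v v' hv
    have h2 : ((Matrix.of B).map (eval s)).mulVec ((M.map (eval s)).mulVec v) =
        ((Matrix.of B).map (eval s)).mulVec ((M.map (eval s)).mulVec v') := congrArg _ hv
    rw [Matrix.mulVec_mulVec, Matrix.mulVec_mulVec, h1, Matrix.smul_mulVec, Matrix.smul_mulVec, Matrix.one_mulVec,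
      Matrix.one_mulVec] at h2
    exact smul_right_injective _ hs h2

end Pool.Agent.L0h88.FP
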