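import Mathlib

/-!
# Minimal sets with an invariant mean are totally bounded for invariant pseudometrics
-/

open Filter Topology Set

set_option linter.unusedSectionVars false

namespace Pool.Agent.L0h88.FP

/-- minimal nonempty compact subsets with a property stable under intersections -/
lemma exists_minimal {Y : Type*} [TopologicalSpace Y] [T2Space Y] (C : Set Y) (hC : IsCompact C)
    (hne : C.Nonempty) (Q : Set Y → Prop)
    (hQC : Q C) (hQ : ∀ 𝒞 : Set (Set Y), 𝒞.Nonempty → (∀ A ∈ 𝒞, Q A) → Q (⋂₀ 𝒞)) :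
    ∃ M ⊆ C, M.Nonempty ∧ IsCompact M ∧ Q M ∧
      ∀ A ⊆ M, A.Nonempty → IsCompact A → Q A → A = M := by
  let 𝒮 : Set (Set Y) := {A | A ⊆ C ∧ A.Nonempty ∧ IsCompact A ∧ Q A}
  obtain ⟨M, hM⟩ := zorn_superset 𝒮 (by
    intro c hc hchain
    rcases c.eq_empty_or_nonempty with rfl | hcne
    · exact ⟨C, ⟨subset_rfl, hne, hC, hQC⟩, by simp⟩
    · refine ⟨⋂₀ c, ⟨?_, ?_, ?_, ?_⟩, fun s hs => sInter_subset_of_mem hs⟩
      · obtain ⟨A, hA⟩ := hcne
        exact (sInter_subset_of_mem hA).trans (hc hA).1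
      · have : Nonempty c := hcne.to_subtype
        refine IsCompact.nonempty_sInter_of_directed_nonempty_isCompact_isClosed ?_ ?_ ?_ ?_
        · intro A hA B hB
          rcases hchain.total hA hB with h | h
          · exact ⟨A, hA, subset_rfl, h⟩
          · exact ⟨B, hB, h, subset_rfl⟩
        · exact fun U hU => (hc hU).2.1
        · exact fun U hU => (hc hU).2.2.1
        · exact fun U hU => (hc hU).2.2.1.isClosed
      · obtain ⟨A, hA⟩ := hcne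
        exact (hc hA).2.2.1.of_isClosed_subset
          (isClosed_sInter fun B hB => (hc hB).2.2.1.isClosed) (sInter_subset_of_mem hA)
      · exact hQ c hcne (fun A hA => (hc hA).2.2.2))
  refine ⟨M, hM.prop.1, hM.prop.2.1, hM.prop.2.2.1, hM.prop.2.2.2, ?_⟩
  intro A hA hAne hAc hAQ
  exact le_antisymm hA (hM.le_of_le ⟨hA.trans hM.prop.1, hAne, hAc, hAQ⟩ hA)

variable {K S : Type*} [TopologicalSpace K] [CompactSpace K] [T2Space K]

/-- `F` is a minimal nonempty closed invariant set with an invariant mean on it. -/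
structure Sys (T : S → K → K) (hT : ∀ s, Continuous (T s)) (F : Set K)
    (Λ : C(K, ℝ) →ₗ[ℝ] ℝ) : Prop where
  closed : IsClosed F
  ne : F.Nonempty
  inv : ∀ s, MapsTo (T s) F F
  min : ∀ A ⊆ F, A.Nonempty → IsClosed A → (∀ s, MapsTo (T s) A A) → A = F
  comp : ∀ s t, ∃ u, ∀ x, T u x = T s (T t x)
  pos : ∀ φ : C(K, ℝ), (∀ x ∈ F, 0 ≤ φ x) → 0 ≤ Λ φ
  one : Λ 1 = 1
  minv : ∀ s (φ : C(K, ℝ)), Λ (φ.comp ⟨T s, hT s⟩) = Λ φ

variable {T : S → K → K} {hT : ∀ s, Continuous (T s)} {F : Set K} {Λ : C(K, ℝ) →ₗ[ℝ] ℝ}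

namespace Sys

lemma mono (h : Sys T hT F Λ) (φ ψ : C(K, ℝ)) (hle : ∀ x ∈ F, φ x ≤ ψ x) : Λ φ ≤ Λ ψ := by
  have h1 := h.pos (ψ - φ) (fun x hx => by
    have := hle x hx
    show 0 ≤ ψ x - φ x
    linarith)
  rw [map_sub] at h1
  linarith

/-- the support of the mean is all of `F` -/
lemma full_support (h : Sys T hT F Λ) (y : K) (hy : y ∈ F) (φ : C(K, ℝ))
    (hφ : ∀ x ∈ F, 0 ≤ φ x) (hφy : 0 < φ y) : 0 < Λ φ := by
  classical
  set N : Set K := F ∩ {y | ∀ φ : C(K, ℝ), (∀ x ∈ F, 0 ≤ φ x) → Λ φ ≤ 0 → φ y ≤ 0} with hN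
  have hNcl : IsClosed N := by
    refine h.closed.inter ?_
    have : {y | ∀ φ : C(K, ℝ), (∀ x ∈ F, 0 ≤ φ x) → Λ φ ≤ 0 → φ y ≤ 0} =
        ⋂ (φ : C(K, ℝ)) (_ : ∀ x ∈ F, 0 ≤ φ x) (_ : Λ φ ≤ 0), {y | φ y ≤ 0} := by
      ext y; simp
    rw [this]
    exact isClosed_iInter fun φ => isClosed_iInter fun _ => isClosed_iInter fun _ =>
      isClosed_le φ.continuous continuous_const
  have hNinv : ∀ s, MapsTo (T s) N N := by
    intro s x hx
    refine ⟨h.inv s hx.1, fun φ hφ hΛ => ?_⟩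
    have h1 := hx.2 (φ.comp ⟨T s, hT s⟩) (fun z hz => hφ _ (h.inv s hz)) (by rw [h.minv]; exact hΛ)
    exact h1
  have hNne : N.Nonempty := by
    by_contra hne
    rw [not_nonempty_iff_eq_empty] at hne
    have h1 : ∀ x ∈ F, ∃ φ : C(K, ℝ), (∀ z ∈ F, 0 ≤ φ z) ∧ Λ φ ≤ 0 ∧ 0 < φ x := by
      intro x hx
      by_contra hcon
      push Not at hcon
      have : x ∈ N := ⟨hx, fun φ h1 h2 => hcon φ h1 h2⟩
      rw [hne] at this
      exact this
    choose! Φ hΦ1 hΦ2 hΦ3 using h1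
    obtain ⟨t, htF, ht⟩ := h.closed.isCompact.elim_nhds_subcover (fun x => {z | 0 < Φ x z})
      (fun x hx => (isOpen_lt continuous_const (Φ x).continuous).mem_nhds (hΦ3 x hx))
    set Ψ : C(K, ℝ) := ∑ x ∈ t, Φ x with hΨ
    have hΨapp : ∀ z, Ψ z = ∑ x ∈ t, Φ x z := by
      intro z
      rw [hΨ]
      simp
    have hΨpos : ∀ z ∈ F, 0 < Ψ z := by
      intro z hz
      rw [hΨapp]
      have h2 := ht hz
      simp only [mem_iUnion] at h2
      obtain ⟨x, hx, hzx⟩ := h2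
      exact Finset.sum_pos' (fun i hi => hΦ1 i (htF i hi) z hz) ⟨x, hx, hzx⟩
    obtain ⟨z₀, hz₀, hmin⟩ := h.closed.isCompact.exists_isMinOn h.ne Ψ.continuous.continuousOn
    have h3 : Λ (Ψ z₀ • (1 : C(K, ℝ))) ≤ Λ Ψ := by
      refine h.mono _ _ (fun x hx => ?_)
      have := hmin hx
      show Ψ z₀ * 1 ≤ Ψ x
      rw [mul_one]
      exact this
    rw [map_smul, h.one, smul_eq_mul, mul_one] at h3
    have h4 : Λ Ψ ≤ 0 := by
      rw [hΨ, map_sum]
      exact Finset.sum_nonpos fun x hx => hΦ2 x (htF x hx)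
    linarith [hΨpos z₀ hz₀]
  have hNF := h.min N inter_subset_left hNne hNcl hNinv
  rw [← hNF] at hy
  by_contra hcon
  have := hy.2 φ hφ (not_lt.1 hcon)
  linarith

lemma onto (h : Sys T hT F Λ) (s : S) : T s '' F = F := by
  refine subset_antisymm (h.inv s).image_subset ?_
  intro y hy
  by_contra hcon
  have hcl : IsClosed (T s '' F) := (h.closed.isCompact.image (hT s)).isClosed
  obtain ⟨φ, h0, h1, h01⟩ := exists_continuous_zero_one_of_isClosed hcl (isClosed_singleton (x := y))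
    (by rw [disjoint_singleton_right]; exact hcon)
  have h2 := h.full_support y hy φ (fun x _ => (h01 x).1) (by
    rw [h1 (mem_singleton y)]; norm_num)
  have h3 : Λ (φ.comp ⟨T s, hT s⟩) ≤ Λ 0 := by
    refine h.mono _ _ (fun x hx => ?_)
    have := h0 (mem_image_of_mem (T s) hx)
    exact this.le
  rw [h.minv, map_zero] at h3
  linarith

lemma closure_orbit [Nonempty S] (h : Sys T hT F Λ) (y : K) (hy : y ∈ F) :
    closure (range fun s => T s y) = F := by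
  refine h.min _ ?_ ?_ isClosed_closure ?_
  · refine closure_minimal ?_ h.closed
    rintro _ ⟨s, rfl⟩
    exact h.inv s hy
  · exact (range_nonempty _).closure
  · intro s x hx
    have h1 := image_closure_subset_closure_image (hT s) (mem_image_of_mem (T s) hx)
    refine closure_mono ?_ h1
    rintro _ ⟨_, ⟨t, rfl⟩, rfl⟩
    obtain ⟨u, hu⟩ := h.comp s t
    exact ⟨u, hu y⟩

variable (d : K → K → ℝ)

/-- the mass of the `d`-balls is bounded below -/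
lemma mass [Nonempty S] (h : Sys T hT F Λ) (hdT : ∀ s x y, d (T s x) (T s y) ≤ d x y) (ε : ℝ)
    (hcl : IsClosed {q : K × K | d q.1 q.2 ≤ ε}) (U : Set K) (hU : IsOpen U)
    (hUF : (U ∩ F).Nonempty) (hUd : ∀ x ∈ U ∩ F, ∀ y ∈ U ∩ F, d x y ≤ ε) :
    ∃ δ : ℝ, 0 < δ ∧ ∀ z ∈ F, ∀ ψ : C(K, ℝ), (∀ x ∈ F, 0 ≤ ψ x) →
      (∀ w ∈ F, d w z ≤ ε → 1 ≤ ψ w) → δ ≤ Λ ψ := by
  obtain ⟨y, hyU, hyF⟩ := hUF
  obtain ⟨φ, h0, h1, h01⟩ := exists_continuous_zero_one_of_isClosed hU.isClosed_compl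
    (isClosed_singleton (x := y)) (by
      rw [disjoint_singleton_right]
      exact fun hcon => hcon hyU)
  have hφy : φ y = 1 := h1 (mem_singleton y)
  have hδ := h.full_support y hyF φ (fun x _ => (h01 x).1) (by rw [hφy]; norm_num)
  refine ⟨Λ φ, hδ, ?_⟩
  -- points of the orbit
  have horb : ∀ s, ∀ ψ : C(K, ℝ), (∀ x ∈ F, 0 ≤ ψ x) →
      (∀ w ∈ F, d w (T s y) ≤ ε → 1 ≤ ψ w) → Λ φ ≤ Λ ψ := by
    intro s ψ hψ0 hψ1
    rw [← h.minv s ψ]
    refine h.mono _ _ (fun w hw => ?_)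
    show φ w ≤ ψ (T s w)
    by_cases hwU : w ∈ U
    · have h2 : d w y ≤ ε := hUd w ⟨hwU, hw⟩ y ⟨hyU, hyF⟩
      exact (h01 w).2.trans (hψ1 _ (h.inv s hw) ((hdT s w y).trans h2))
    · have h3 : φ w = 0 := h0 hwU
      rw [h3]
      exact hψ0 _ (h.inv s hw)
  intro z hz ψ hψ0 hψ1
  have key : ∀ η : ℝ, 0 < η → η < 1 → (1 - η) * Λ φ ≤ Λ ψ := by
    intro η hη0 hη1
    set B : Set (K × K) := {q | d q.1 q.2 ≤ ε} ∩ ((F ×ˢ univ) ∩ {q | ψ q.1 ≤ 1 - η}) with hB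
    have hBcl : IsClosed B :=
      hcl.inter ((h.closed.prod isClosed_univ).inter
        (isClosed_le (ψ.continuous.comp continuous_fst) continuous_const))
    have hpr : IsClosed (Prod.snd '' B) := (hBcl.isCompact.image continuous_snd).isClosed
    have hz' : z ∈ (Prod.snd '' B)ᶜ := by
      rintro ⟨⟨w, z'⟩, hq, rfl⟩
      have h4 := hψ1 w hq.2.1.1 hq.1
      have h5 : ψ w ≤ 1 - η := hq.2.2
      linarith
    have hzc : z ∈ closure (range fun s => T s y) := by rw [h.closure_orbit y hyF]; exact hz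
    obtain ⟨_, hs1, ⟨s, rfl⟩⟩ := mem_closure_iff.1 hzc _ hpr.isOpen_compl hz'
    have h6 : ∀ w ∈ F, d w (T s y) ≤ ε → 1 - η < ψ w := by
      intro w hw hdw
      by_contra hcon
      exact hs1 ⟨(w, T s y), ⟨hdw, ⟨hw, mem_univ _⟩, not_lt.1 hcon⟩, rfl⟩
    have h7 := horb s ((1 - η)⁻¹ • ψ) (fun x hx => ?_) (fun w hw hdw => ?_)
    · rw [map_smul, smul_eq_mul] at h7
      rwa [le_inv_mul_iff₀ (by linarith)] at h7
    · show 0 ≤ (1 - η)⁻¹ * ψ x
      exact mul_nonneg (inv_nonneg.2 (by linarith)) (hψ0 x hx)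
    · show 1 ≤ (1 - η)⁻¹ * ψ w
      rw [le_inv_mul_iff₀ (by linarith), mul_one]
      exact (h6 w hw hdw).le
  have hlim : Tendsto (fun η : ℝ => (1 - η) * Λ φ) (𝓝[>] 0) (𝓝 ((1 - 0) * Λ φ)) := by
    refine Tendsto.mono_left ?_ nhdsWithin_le_nhds
    exact ((continuous_const.sub continuous_id).mul continuous_const).tendsto 0
  rw [sub_zero, one_mul] at hlim
  refine le_of_tendsto hlim ?_
  filter_upwards [Ioo_mem_nhdsGT (zero_lt_one : (0 : ℝ) < 1)] with η hη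
  exact key η hη.1 hη.2

/-- packing bound -/
lemma packing (h : Sys T hT F Λ) (dsymm : ∀ x y, d x y = d y x)
    (dtri : ∀ x y z, d x z ≤ d x y + d y z) (ε δ : ℝ)
    (hcl : ∀ z, IsClosed {w : K | d w z ≤ ε})
    (hmass : ∀ z ∈ F, ∀ ψ : C(K, ℝ), (∀ x ∈ F, 0 ≤ ψ x) →
      (∀ w ∈ F, d w z ≤ ε → 1 ≤ ψ w) → δ ≤ Λ ψ) (t : Finset K) :
    (∀ z ∈ t, z ∈ F) → (∀ z ∈ t, ∀ w ∈ t, z ≠ w → 2 * ε < d z w) →
    ∀ ψ : C(K, ℝ), (∀ x ∈ F, 0 ≤ ψ x) → (∀ z ∈ t, ∀ w ∈ F, d w z ≤ ε → 1 ≤ ψ w) →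
      t.card * δ ≤ Λ ψ := by
  classical
  induction t using Finset.induction_on with
  | empty =>
    intro _ _ ψ hψ _
    rw [Finset.card_empty, Nat.cast_zero, zero_mul]
    exact h.pos ψ hψ
  | insert z t hzt ih =>
    intro htF hsep ψ hψ0 hψ1
    have htF' : ∀ z ∈ t, z ∈ F := fun w hw => htF w (Finset.mem_insert_of_mem hw)
    have hsep' : ∀ z ∈ t, ∀ w ∈ t, z ≠ w → 2 * ε < d z w := fun a ha b hb =>
      hsep a (Finset.mem_insert_of_mem ha) b (Finset.mem_insert_of_mem hb)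
    have hA : IsClosed {w : K | d w z ≤ ε} := hcl z
    have hB : IsClosed (⋃ z' ∈ t, {w : K | d w z' ≤ ε}) :=
      isClosed_biUnion_finset fun z' _ => hcl z'
    have hdis : Disjoint (⋃ z' ∈ t, {w : K | d w z' ≤ ε}) {w : K | d w z ≤ ε} := by
      rw [Set.disjoint_left]
      intro w hw hwz
      simp only [mem_iUnion] at hw
      obtain ⟨z', hz', hwz'⟩ := hw
      have h1 := hsep z (Finset.mem_insert_self _ _) z' (Finset.mem_insert_of_mem hz')
        (fun hzz => hzt (hzz ▸ hz'))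
      have h2 := dtri z w z'
      rw [dsymm z w] at h2
      have h3 : d w z' ≤ ε := hwz'
      have h4 : d w z ≤ ε := hwz
      linarith
    obtain ⟨χ, h0, h1, h01⟩ := exists_continuous_zero_one_of_isClosed hB hA hdis
    have e1 : ψ = ψ * χ + ψ * (1 - χ) := by
      rw [← mul_add, add_sub_cancel, mul_one]
    have h2 : δ ≤ Λ (ψ * χ) := by
      refine hmass z (htF z (Finset.mem_insert_self _ _)) _ (fun x hx => ?_) (fun w hw hdw => ?_)
      · exact mul_nonneg (hψ0 x hx) (h01 x).1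
      · show 1 ≤ ψ w * χ w
        rw [h1 (show w ∈ {w : K | d w z ≤ ε} from hdw)]
        show 1 ≤ ψ w * 1
        rw [mul_one]
        exact hψ1 z (Finset.mem_insert_self _ _) w hw hdw
    have h3 : t.card * δ ≤ Λ (ψ * (1 - χ)) := by
      refine ih htF' hsep' _ (fun x hx => ?_) (fun z' hz' w hw hdw => ?_)
      · exact mul_nonneg (hψ0 x hx) (by show 0 ≤ 1 - χ x; linarith [(h01 x).2])
      · show 1 ≤ ψ w * (1 - χ w)
        have h4 : χ w = 0 := h0 (mem_iUnion₂.2 ⟨z', hz', hdw⟩)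
        rw [h4, sub_zero, mul_one]
        exact hψ1 z' (Finset.mem_insert_of_mem hz') w hw hdw
    rw [Finset.card_insert_of_notMem hzt, e1, map_add]
    push_cast
    linarith

/-- the minimal set is totally bounded -/
theorem totally_bounded [Nonempty S] (h : Sys T hT F Λ) (d0 : ∀ x, d x x = 0)
    (dsymm : ∀ x y, d x y = d y x)
    (dtri : ∀ x y z, d x z ≤ d x y + d y z) (hdT : ∀ s x y, d (T s x) (T s y) ≤ d x y)
    (hcl : ∀ ε, IsClosed {q : K × K | d q.1 q.2 ≤ ε})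
    (hfrag : ∀ ε > 0, ∃ U : Set K, IsOpen U ∧ (U ∩ F).Nonempty ∧
      ∀ x ∈ U ∩ F, ∀ y ∈ U ∩ F, d x y ≤ ε) (ε : ℝ) (hε : 0 < ε) :
    ∃ N : Finset K, (∀ a ∈ N, a ∈ F) ∧ ∀ x ∈ F, ∃ a ∈ N, d x a ≤ ε := by
  classical
  obtain ⟨U, hU, hUF, hUd⟩ := hfrag (ε / 2) (by linarith)
  obtain ⟨δ, hδ, hmass⟩ := h.mass d hdT (ε / 2) (hcl _) U hU hUF hUd
  have hcl' : ∀ z, IsClosed {w : K | d w z ≤ ε / 2} := fun z =>
    (hcl (ε / 2)).preimage (by fun_prop : Continuous fun w : K => (w, z))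
  have hpack : ∀ t : Finset K, (∀ z ∈ t, z ∈ F) → (∀ z ∈ t, ∀ w ∈ t, z ≠ w → ε < d z w) →
      t.card ≤ ⌊1 / δ⌋₊ := by
    intro t h1 h2
    have h3 := h.packing d dsymm dtri (ε / 2) δ hcl' hmass t h1
      (fun z hz w hw hzw => by have := h2 z hz w hw hzw; linarith) 1
      (fun x _ => zero_le_one) (fun z _ w _ _ => le_rfl)
    rw [h.one] at h3
    apply Nat.le_floor
    rw [le_div_iff₀ hδ]
    exact h3
  set P : ℕ → Prop := fun n => ∃ t : Finset K, (∀ z ∈ t, z ∈ F) ∧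
    (∀ z ∈ t, ∀ w ∈ t, z ≠ w → ε < d z w) ∧ t.card = n with hP
  have hP0 : P 0 := ⟨∅, by simp, by simp, rfl⟩
  obtain ⟨n, ⟨t, ht1, ht2, ht3⟩, hnmax⟩ : ∃ n, P n ∧ ∀ m, P m → m ≤ n := by
    refine ⟨Nat.findGreatest P ⌊1 / δ⌋₊, Nat.findGreatest_spec (Nat.zero_le _) hP0, fun m hm => ?_⟩
    obtain ⟨t, h1, h2, h3⟩ := hm
    exact Nat.le_findGreatest (h3 ▸ hpack t h1 h2) ⟨t, h1, h2, h3⟩
  refine ⟨t, ht1, fun x hx => ?_⟩
  by_contra hcon
  push Not at hcon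
  have hxt : x ∉ t := fun hxt => by
    have := hcon x hxt
    rw [d0] at this
    linarith
  have := hnmax (n + 1) ⟨insert x t, ?_, ?_, ?_⟩
  · omega
  · intro z hz
    rcases Finset.mem_insert.1 hz with rfl | hz
    · exact hx
    · exact ht1 z hz
  · intro z hz w hw hzw
    rcases Finset.mem_insert.1 hz with hz' | hz' <;> rcases Finset.mem_insert.1 hw with hw' | hw'
    · exact absurd (hz'.trans hw'.symm) hzw
    · rw [hz']; exact hcon w hw'
    · rw [dsymm, hw']; exact hcon z hz'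
    · exact ht2 z hz' w hw' hzw
  · rw [Finset.card_insert_of_notMem hxt, ht3]

end Sys

/-- De Marr's lemma: a totally bounded set with two points at positive distance has a convex
combination whose distances to the set are bounded by a number less than the diameter. -/
lemma demarr {Y : Type*} [AddCommGroup Y] [Module ℝ Y] (p : Seminorm ℝ Y)
    (C₀ : Set Y) (hC₀conv : Convex ℝ C₀) (F : Set Y) (hFC₀ : F ⊆ C₀)
    (htb : ∀ ε > 0, ∃ N : Finset Y, (∀ a ∈ N, a ∈ F) ∧ ∀ x ∈ F, ∃ a ∈ N, p (x - a) ≤ ε)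
    (x₀ y₀ : Y) (hx₀ : x₀ ∈ F) (hy₀ : y₀ ∈ F) (hxy : 0 < p (x₀ - y₀)) :
    ∃ (u : Y) (ρ : ℝ), u ∈ C₀ ∧ (∀ k ∈ F, p (u - k) ≤ ρ) ∧ ∃ k₁ ∈ F, ∃ k₂ ∈ F, ρ < p (k₁ - k₂) := by
  classical
  have dtri : ∀ x y z : Y, p (x - z) ≤ p (x - y) + p (y - z) := by
    intro x y z
    have h : x - z = (x - y) + (y - z) := by abel
    rw [h]; exact map_add_le_add p _ _
  set R : Set ℝ := {r | ∃ x ∈ F, ∃ y ∈ F, p (x - y) = r} with hR
  have hbdd : BddAbove R := by
    obtain ⟨N, hNF, hN⟩ := htb 1 one_pos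
    refine ⟨2 + ∑ v ∈ N, ∑ w ∈ N, p (v - w), ?_⟩
    rintro _ ⟨x, hx, y, hy, rfl⟩
    obtain ⟨a, ha, hxa⟩ := hN x hx
    obtain ⟨b, hb, hyb⟩ := hN y hy
    have h3 : p (a - b) ≤ ∑ v ∈ N, ∑ w ∈ N, p (v - w) := by
      calc p (a - b) ≤ ∑ w ∈ N, p (a - w) :=
            Finset.single_le_sum (f := fun w => p (a - w)) (fun w _ => apply_nonneg p _) hb
        _ ≤ ∑ v ∈ N, ∑ w ∈ N, p (v - w) :=
            Finset.single_le_sum (f := fun v => ∑ w ∈ N, p (v - w))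
              (fun v _ => Finset.sum_nonneg fun w _ => apply_nonneg p _) ha
    have h4 := dtri x a y
    have h5 := dtri a b y
    rw [map_sub_rev p b y] at h5
    linarith
  set δ := sSup R with hδ
  have hle : ∀ x ∈ F, ∀ y ∈ F, p (x - y) ≤ δ := fun x hx y hy => le_csSup hbdd ⟨x, hx, y, hy, rfl⟩
  have hδpos : 0 < δ := hxy.trans_le (hle x₀ hx₀ y₀ hy₀)
  obtain ⟨N, hNF, hN⟩ := htb (δ / 2) (by linarith)
  have hNne : N.Nonempty := by
    obtain ⟨a, ha, _⟩ := hN x₀ hx₀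
    exact ⟨a, ha⟩
  set n := N.card with hn
  have hn1 : 0 < n := hNne.card_pos
  have hcard : (0:ℝ) < n := by exact_mod_cast hn1
  obtain ⟨κ, hκ⟩ : ∃ κ : ℝ, κ = 1 / n := ⟨_, rfl⟩
  have hκ0 : 0 < κ := by rw [hκ]; positivity
  have hκn : n * κ = 1 := by rw [hκ]; field_simp
  refine ⟨∑ w ∈ N, κ • w, δ - δ / 2 * κ, ?_, ?_, ?_⟩
  · apply hC₀conv.sum_mem
    · intro w _; exact hκ0.le
    · rw [Finset.sum_const, nsmul_eq_mul, ← hn, hκn]
    · intro w hw; exact hFC₀ (hNF w hw)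
  · intro k hk
    obtain ⟨b, hb, hkb⟩ := hN k hk
    have e1 : ∑ w ∈ N, κ • w - k = ∑ w ∈ N, κ • (w - k) := by
      simp only [smul_sub, Finset.sum_sub_distrib]
      rw [Finset.sum_const, ← hn, ← Nat.cast_smul_eq_nsmul ℝ, smul_smul, hκn, one_smul]
    rw [e1]
    calc p (∑ w ∈ N, κ • (w - k))
        ≤ ∑ w ∈ N, p (κ • (w - k)) :=
          Finset.le_sum_of_subadditive p (map_zero p).le (map_add_le_add p) _ _
      _ = ∑ w ∈ N, κ * p (w - k) := by
          apply Finset.sum_congr rfl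
          intro w _
          rw [map_smul_eq_mul, Real.norm_of_nonneg hκ0.le]
      _ = κ * ∑ w ∈ N, p (w - k) := by rw [Finset.mul_sum]
      _ ≤ κ * (δ * n - δ / 2) := by
          apply mul_le_mul_of_nonneg_left _ hκ0.le
          rw [← Finset.add_sum_erase N _ hb]
          have h1 : p (b - k) ≤ δ / 2 := by rw [map_sub_rev]; exact hkb
          have h2 : ∑ w ∈ N.erase b, p (w - k) ≤ ∑ w ∈ N.erase b, δ :=
            Finset.sum_le_sum fun w hw => hle _ (hNF w (Finset.mem_of_mem_erase hw)) _ hk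
          rw [Finset.sum_const, Finset.card_erase_of_mem hb, nsmul_eq_mul, ← hn,
            Nat.cast_sub hn1] at h2
          push_cast at h2
          linarith
      _ = δ - δ / 2 * κ := by
          linear_combination δ * hκn
  · have hρδ : δ - δ / 2 * κ < δ := by
      have := mul_pos (half_pos hδpos) hκ0
      linarith
    obtain ⟨_, ⟨k₁, hk₁, k₂, hk₂, rfl⟩, hk⟩ := exists_lt_of_lt_csSup
      (show R.Nonempty from ⟨_, x₀, hx₀, y₀, hy₀, rfl⟩) hρδ
    exact ⟨k₁, hk₁, k₂, hk₂, hk⟩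

end Pool.Agent.L0h88.FP
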