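import Pool.Agent.L0h88.FP.Frag
import Pool.Agent.L0h88.FP.Inv

/-!
# The fixed point theorem, abstract form
-/

open Filter Topology Set

set_option linter.unusedSectionVars false

namespace Pool.Agent.L0h88.FP

theorem core {Y : Type*} [AddCommGroup Y] [Module ℝ Y] [TopologicalSpace Y] [T2Space Y]
    {ι : Type*} (p : ι → Seminorm ℝ Y) (hsep : ∀ x : Y, (∀ i, p i x = 0) → x = 0)
    (hcl : ∀ i r, IsClosed {q : Y × Y | p i (q.1 - q.2) ≤ r})
    (hmaz : ∀ i (A : Set Y), ∀ x ∈ closure A, ∀ ε > 0, ∃ c ∈ convexHull ℝ A, p i (x - c) < ε)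
    (C : Set Y) (hC : IsCompact C) (hne : C.Nonempty) (hconv : Convex ℝ C)
    {S : Type*} (T : S → C → C) (hT : ∀ s, Continuous (T s))
    (hS : ∀ s t, ∃ u, ∀ x, T u x = T s (T t x))
    (hn : ∀ i s x y, p i ((T s x : Y) - T s y) ≤ p i ((x : Y) - y))
    (hΛ : ∀ x : C, ∃ Λ : C(C, ℝ) →ₗ[ℝ] ℝ, (∀ φ : C(C, ℝ), (∀ s, 0 ≤ φ (T s x)) → 0 ≤ Λ φ) ∧
      Λ 1 = 1 ∧ ∀ (s : S) (φ : C(C, ℝ)), Λ (φ.comp ⟨T s, hT s⟩) = Λ φ) :
    ∃ x : C, ∀ s, T s x = x := by
  classical
  haveI : CompactSpace C := isCompact_iff_compactSpace.1 hC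
  -- the minimal convex invariant set
  obtain ⟨C₀, hC₀C, hC₀ne, hC₀c, ⟨hC₀conv, hC₀inv⟩, hC₀min⟩ :=
    exists_minimal C hC hne (fun A => Convex ℝ A ∧ ∀ s (x : C), (x : Y) ∈ A → (T s x : Y) ∈ A)
      ⟨hconv, fun s x _ => (T s x).2⟩ (by
        intro 𝒞 _ h
        exact ⟨convex_sInter fun A hA => (h A hA).1, fun s x hx A hA => (h A hA).2 s x (hx A hA)⟩)
  obtain ⟨F₀, hF₀C₀, hF₀ne, hF₀c, hF₀inv, hF₀min⟩ :=
    exists_minimal C₀ hC₀c hC₀ne (fun A => ∀ s (x : C), (x : Y) ∈ A → (T s x : Y) ∈ A)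
      hC₀inv (by
        intro 𝒞 _ h
        exact fun s x hx A hA => h A hA s x (hx A hA))
  have hF₀C : F₀ ⊆ C := hF₀C₀.trans hC₀C
  set F : Set C := Subtype.val ⁻¹' F₀ with hF
  obtain ⟨y₁, hy₁⟩ := hF₀ne
  set x₁ : C := ⟨y₁, hF₀C hy₁⟩ with hx₁
  obtain ⟨Λ, hΛpos, hΛ1, hΛinv⟩ := hΛ x₁
  haveI hSne : Nonempty S := by
    by_contra hcon
    rw [not_nonempty_iff] at hcon
    have h1 := hΛpos (-1) (fun s => hcon.elim s)
    rw [map_neg, hΛ1] at h1
    linarith
  have hsys : Sys T hT F Λ := by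
    refine ⟨hF₀c.isClosed.preimage continuous_subtype_val, ⟨x₁, hy₁⟩, fun s x hx => hF₀inv s x hx,
      ?_, hS, fun φ hφ => hΛpos φ (fun s => hφ _ (hF₀inv s x₁ hy₁)), hΛ1, hΛinv⟩
    intro A hAF hAne hAcl hAinv
    have h1 : (Subtype.val '' A : Set Y) = F₀ := by
      refine hF₀min _ ?_ (hAne.image _) (hAcl.isCompact.image continuous_subtype_val) ?_
      · rintro _ ⟨x, hx, rfl⟩
        exact hAF hx
      · rintro s x ⟨x', hx', hxx'⟩
        have : x' = x := Subtype.ext hxx'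
        exact ⟨T s x, hAinv s (this ▸ hx'), rfl⟩
    ext x
    constructor
    · exact fun hx => hAF hx
    · intro hx
      have h2 : (x : Y) ∈ (Subtype.val '' A : Set Y) := by rw [h1]; exact hx
      obtain ⟨x', hx', hxx'⟩ := h2
      rwa [← Subtype.ext hxx']
  haveI : Nonempty F := hsys.ne.to_subtype
  haveI : CompactSpace F := isCompact_iff_compactSpace.1 hsys.closed.isCompact
  -- total boundedness for each seminorm
  have htb : ∀ i, ∀ ε > 0, ∃ N : Finset Y, (∀ a ∈ N, a ∈ F₀) ∧ ∀ x ∈ F₀, ∃ a ∈ N, p i (x - a) ≤ ε := by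
    intro i ε hε
    have hclC : ∀ ε, IsClosed {q : C × C | p i ((q.1 : Y) - q.2) ≤ ε} := fun ε =>
      (hcl i ε).preimage (by fun_prop : Continuous fun q : C × C => ((q.1 : Y), (q.2 : Y)))
    obtain ⟨N, hNF, hN⟩ := hsys.totally_bounded (fun x y : C => p i ((x : Y) - y))
      (fun x => by simp) (fun x y => map_sub_rev (p i) _ _)
      (fun x y z => by
        have h : (x : Y) - z = (x - y) + (y - z) := by abel
        show p i ((x : Y) - z) ≤ _
        rw [h]; exact map_add_le_add (p i) _ _)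
      (fun s x y => hn i s x y) hclC (by
        intro ε hε
        obtain ⟨U', hU', hU'ne, hU'd⟩ := exists_small_open (K := F) (p i) (fun x => ((x : C) : Y))
          (fun y r => by
            have h1 := (hcl i r).preimage
              (by fun_prop : Continuous fun x : F => (((x : C) : Y), y))
            exact h1)
          (fun A x hx ε hε => by
            have hcont : Continuous fun x : F => ((x : C) : Y) := by fun_prop
            have h2 := image_closure_subset_closure_image hcont (mem_image_of_mem _ hx)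
            exact hmaz i _ _ h2 ε hε) ε hε
        obtain ⟨U, hU, rfl⟩ := isOpen_induced_iff.1 hU'
        refine ⟨U, hU, ?_, ?_⟩
        · obtain ⟨x, hx⟩ := hU'ne
          exact ⟨x, hx, x.2⟩
        · rintro x ⟨hxU, hxF⟩ y ⟨hyU, hyF⟩
          exact hU'd ⟨x, hxF⟩ hxU ⟨y, hyF⟩ hyU) ε hε
    refine ⟨N.image Subtype.val, ?_, ?_⟩
    · intro a ha
      obtain ⟨a', ha', rfl⟩ := Finset.mem_image.1 ha
      exact hNF a' ha'
    · intro x hx
      obtain ⟨a, ha, hxa⟩ := hN ⟨x, hF₀C hx⟩ hx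
      exact ⟨a, Finset.mem_image_of_mem _ ha, hxa⟩
  -- `F₀` is a point
  have hpt : ∀ x ∈ F₀, ∀ y ∈ F₀, x = y := by
    intro x hx y hy
    by_contra hxy
    obtain ⟨i, hi⟩ : ∃ i, p i (x - y) ≠ 0 := by
      by_contra hcon
      push Not at hcon
      exact hxy (sub_eq_zero.1 (hsep _ hcon))
    have hpos : 0 < p i (x - y) := lt_of_le_of_ne (apply_nonneg _ _) (Ne.symm hi)
    obtain ⟨u, ρ, huC₀, huρ, k₁, hk₁, k₂, hk₂, hk⟩ :=
      demarr (p i) C₀ hC₀conv F₀ hF₀C₀ (htb i) x y hx hy hpos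
    have hcl1 : ∀ k : Y, IsClosed {z : Y | p i (z - k) ≤ ρ} := fun k =>
      (hcl i ρ).preimage (by fun_prop : Continuous fun z : Y => (z, k))
    have hC₁ : C₀ ∩ ⋂ k ∈ F₀, {z : Y | p i (z - k) ≤ ρ} = C₀ := by
      refine hC₀min _ inter_subset_left ⟨u, huC₀, by simpa using huρ⟩ ?_ ⟨?_, ?_⟩
      · exact hC₀c.inter_right (isClosed_biInter fun k _ => hcl1 k)
      · refine hC₀conv.inter (convex_iInter₂ fun k _ => ?_)
        have h1 := (p i).convex_closedBall k ρ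
        convert h1 using 1
        ext z
        simp [Seminorm.mem_closedBall]
      · rintro s z ⟨hz1, hz2⟩
        refine ⟨hC₀inv s z hz1, ?_⟩
        simp only [mem_iInter, mem_setOf_eq] at hz2 ⊢
        intro k hk
        have h2 : (⟨k, hF₀C hk⟩ : C) ∈ T s '' F := by
          rw [hsys.onto s]; exact hk
        obtain ⟨k', hk', hkk'⟩ := h2
        have h3 : k = (T s k' : Y) := (congrArg Subtype.val hkk').symm
        rw [h3]
        exact (hn i s z k').trans (hz2 k' hk')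
    have h4 : k₁ ∈ C₀ ∩ ⋂ k ∈ F₀, {z : Y | p i (z - k) ≤ ρ} := by
      rw [hC₁]; exact hF₀C₀ hk₁
    have h5 := h4.2
    simp only [mem_iInter, mem_setOf_eq] at h5
    exact absurd (h5 k₂ hk₂) (not_le.2 hk)
  exact ⟨x₁, fun s => Subtype.ext (hpt _ (hF₀inv s x₁ hy₁) _ hy₁)⟩

end Pool.Agent.L0h88.FP
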