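import Mathlib

/-!
# Weakly compact sets have relatively weakly open subsets of small diameter
-/

open Filter Topology Set

set_option linter.unusedSectionVars false
set_option linter.style.haveILetI false

namespace Pool.Agent.L0h88.FP

variable {K : Type*} [TopologicalSpace K] [CompactSpace K] [T2Space K]
variable {Y : Type*} [AddCommGroup Y] [Module ℝ Y]

/-- finite nets in the convex hull of a finite set -/
lemma exists_net_hull (p : Seminorm ℝ Y) (B : Set Y) (hB : B.Finite) (ε : ℝ) (hε : 0 < ε) :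
    ∃ N : Finset Y, ∀ c ∈ convexHull ℝ B, ∃ a ∈ N, p (c - a) < ε := by
  classical
  letI : SeminormedAddCommGroup Y := p.toSeminormedAddCommGroup
  letI : NormedSpace ℝ Y :=
    { norm_smul_le := fun a b => (map_smul_eq_mul p a b).le }
  have hnorm : ∀ y : Y, ‖y‖ = p y := fun y => rfl
  have hc : IsCompact (convexHull ℝ B) := hB.isCompact_convexHull ℝ
  obtain ⟨t, ht⟩ := hc.elim_nhds_subcover' (fun x _ => Metric.ball x ε)
    (fun x _ => Metric.ball_mem_nhds x hε)
  refine ⟨t.image Subtype.val, fun c hcc => ?_⟩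
  have h1 := ht hcc
  simp only [mem_iUnion] at h1
  obtain ⟨a, ha, hca⟩ := h1
  refine ⟨a, Finset.mem_image_of_mem _ ha, ?_⟩
  rw [← hnorm, ← dist_eq_norm]
  exact hca

variable (p : Seminorm ℝ Y) (j : K → Y)

/-- the open sets avoiding finitely many balls -/
lemma avoid (hb : ∀ (y : Y) (r : ℝ), IsClosed {x : K | p (j x - y) ≤ r}) (ε : ℝ)
    (hbad : ∀ U : Set K, IsOpen U → U.Nonempty → ∃ x ∈ U, ∃ y ∈ U, ε < p (j x - j y))
    (N : Finset Y) (V : Set K) (hV : IsOpen V) (hVne : V.Nonempty) :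
    ∃ W : Set K, IsOpen W ∧ W.Nonempty ∧ W ⊆ V ∧ ∀ x ∈ W, ∀ a ∈ N, ε / 2 < p (j x - a) := by
  classical
  induction N using Finset.induction_on with
  | empty => exact ⟨V, hV, hVne, subset_rfl, fun x _ a ha => absurd ha (Finset.notMem_empty a)⟩
  | insert a N _ ih =>
    obtain ⟨W, hW, hWne, hWV, hWN⟩ := ih
    refine ⟨W \ {x | p (j x - a) ≤ ε / 2}, hW.sdiff (hb a _), ?_, sdiff_subset.trans hWV, ?_⟩
    · by_contra hne
      rw [not_nonempty_iff_eq_empty, sdiff_eq_empty] at hne
      obtain ⟨x, hx, y, hy, hxy⟩ := hbad W hW hWne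
      have h1 : p (j x - a) ≤ ε / 2 := hne hx
      have h2 : p (j y - a) ≤ ε / 2 := hne hy
      have h3 : p (j x - j y) ≤ p (j x - a) + p (j y - a) := by
        have : j x - j y = (j x - a) + (a - j y) := by abel
        rw [this]
        refine (map_add_le_add p _ _).trans ?_
        rw [map_sub_rev p a (j y)]
      linarith
    · intro x hx b hbN
      rcases Finset.mem_insert.1 hbN with rfl | hbN
      · exact not_le.1 hx.2
      · exact hWN x hx.1 b hbN

/-- **Fragmentability.** -/
theorem exists_small_open [Nonempty K]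
    (hb : ∀ (y : Y) (r : ℝ), IsClosed {x : K | p (j x - y) ≤ r})
    (hmaz : ∀ (A : Set K), ∀ x ∈ closure A, ∀ ε > 0, ∃ c ∈ convexHull ℝ (j '' A), p (j x - c) < ε)
    (ε : ℝ) (hε : 0 < ε) :
    ∃ U : Set K, IsOpen U ∧ U.Nonempty ∧ ∀ x ∈ U, ∀ y ∈ U, p (j x - j y) ≤ ε := by
  classical
  by_contra hcon
  have hbad : ∀ U : Set K, IsOpen U → U.Nonempty → ∃ x ∈ U, ∃ y ∈ U, ε < p (j x - j y) := by
    intro U hU hUne
    by_contra h
    push Not at h
    exact hcon ⟨U, hU, hUne, h⟩
  -- one step of the construction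
  have hstep : ∀ q : Finset K × {V : Set K // IsOpen V ∧ V.Nonempty},
      ∃ x ∈ q.2.1, ∃ V' : {V : Set K // IsOpen V ∧ V.Nonempty}, closure V'.1 ⊆ q.2.1 ∧
        ∀ y ∈ closure V'.1, ∀ c ∈ convexHull ℝ (j '' (insert x q.1 : Finset K)),
          3 * ε / 8 ≤ p (j y - c) := by
    rintro ⟨A, V, hV, hVne⟩
    obtain ⟨x, hx⟩ := hVne
    refine ⟨x, hx, ?_⟩
    obtain ⟨N, hN⟩ := exists_net_hull p (j '' (insert x A : Finset K))
      ((Finset.finite_toSet _).image _) (ε / 8) (by linarith)
    obtain ⟨W, hW, ⟨w, hw⟩, hWV, hWN⟩ := avoid p j hb ε hbad N V hV ⟨x, hx⟩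
    obtain ⟨V', hV', hwV', hclV'⟩ : ∃ V' : Set K, IsOpen V' ∧ w ∈ V' ∧ closure V' ⊆ W := by
      obtain ⟨t, ht, htc, htW⟩ := exists_mem_nhds_isClosed_subset (hW.mem_nhds hw)
      obtain ⟨V', hV't, hV', hwV'⟩ := mem_nhds_iff.1 ht
      exact ⟨V', hV', hwV', (closure_minimal hV't htc).trans htW⟩
    refine ⟨⟨V', hV', ⟨w, hwV'⟩⟩, hclV'.trans hWV, fun y hy c hc => ?_⟩
    obtain ⟨a, ha, hca⟩ := hN c hc
    have h1 := hWN y (hclV' hy) a ha
    have h2 : p (j y - a) ≤ p (j y - c) + p (c - a) := by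
      have : j y - a = (j y - c) + (c - a) := by abel
      rw [this]
      exact map_add_le_add p _ _
    linarith
  choose pt hpt nx hnx hnxd using hstep
  let st : ℕ → Finset K × {V : Set K // IsOpen V ∧ V.Nonempty} := fun n =>
    Nat.rec (∅, ⟨univ, isOpen_univ, univ_nonempty⟩) (fun _ q => (insert (pt q) q.1, nx q)) n
  have st_succ : ∀ n, st (n + 1) = (insert (pt (st n)) (st n).1, nx (st n)) := fun n => rfl
  have hmonoA : ∀ m n, m ≤ n → (st m).1 ⊆ (st n).1 := by
    intro m n hmn
    induction n, hmn using Nat.le_induction with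
    | base => exact subset_rfl
    | succ n _ ih => rw [st_succ]; exact ih.trans (Finset.subset_insert _ _)
  have hclV : ∀ n, closure (st (n + 1)).2.1 ⊆ (st n).2.1 := fun n => by
    rw [st_succ]; exact hnx (st n)
  let Ainf : Set K := ⋃ n, ((st n).1 : Set K)
  -- a point in the intersection
  have hne : (⋂ n : ℕ, (closure Ainf ∩ closure (st n).2.1)).Nonempty := by
    apply IsCompact.nonempty_iInter_of_sequence_nonempty_isCompact_isClosed
    · intro n
      refine inter_subset_inter_right _ ((hclV n).trans subset_closure)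
    · intro n
      refine ⟨pt (st n), subset_closure (mem_iUnion.2 ⟨n + 1, ?_⟩), subset_closure (hpt (st n))⟩
      rw [st_succ]
      exact Finset.mem_coe.2 (Finset.mem_insert_self _ _)
    · exact (isClosed_closure.inter isClosed_closure).isCompact
    · intro n
      exact isClosed_closure.inter isClosed_closure
  obtain ⟨xs, hxs⟩ := hne
  rw [mem_iInter] at hxs
  obtain ⟨c, hc, hcd⟩ := hmaz Ainf xs (hxs 0).1 (ε / 8) (by linarith)
  -- `c` lies in the hull of finitely many points
  obtain ⟨m, hcm⟩ : ∃ m, c ∈ convexHull ℝ (j '' ((st m).1 : Set K)) := by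
    rw [convexHull_eq_union_convexHull_finite_subsets] at hc
    simp only [mem_iUnion] at hc
    obtain ⟨t, ht, hct⟩ := hc
    have h1 : ∀ t : Finset Y, (t : Set Y) ⊆ j '' Ainf → ∃ m, (t : Set Y) ⊆ j '' ((st m).1 : Set K) := by
      intro t
      induction t using Finset.induction_on with
      | empty => exact fun _ => ⟨0, by simp⟩
      | insert a t _ ih =>
        intro h
        rw [Finset.coe_insert, insert_subset_iff] at h
        obtain ⟨m, hm⟩ := ih h.2
        obtain ⟨k, hk, rfl⟩ := h.1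
        obtain ⟨l, hl⟩ := mem_iUnion.1 hk
        refine ⟨max m l, ?_⟩
        rw [Finset.coe_insert, insert_subset_iff]
        constructor
        · exact ⟨k, hmonoA l _ (le_max_right _ _) hl, rfl⟩
        · refine hm.trans (image_mono ?_)
          exact_mod_cast hmonoA m _ (le_max_left _ _)
    obtain ⟨m, hm⟩ := h1 t ht
    exact ⟨m, convexHull_mono hm hct⟩
  have h1 : c ∈ convexHull ℝ (j '' ((insert (pt (st m)) (st m).1 : Finset K) : Set K)) := by
    refine convexHull_mono (image_mono ?_) hcm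
    exact_mod_cast Finset.subset_insert _ _
  have h2 := hnxd (st m) xs (by have := (hxs (m + 1)).2; rwa [st_succ] at this) c h1
  linarith

end Pool.Agent.L0h88.FP
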