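import Pool.Agent.L0h88.FP.Pointwise

/-!
# Grothendieck's theorem on pointwise compact sets of continuous functions

If `z ↦ F z` maps a compact space `Z` to a bounded subset of `C(K)`, continuously for the pointwise
topology, then it is continuous for the weak topology.
-/

open Filter Topology Set

set_option linter.unusedSectionVars false

namespace Pool.Agent.L0h88.FP

variable {Z K : Type*} [TopologicalSpace Z] [CompactSpace Z] [TopologicalSpace K] [CompactSpace K]

/-- finite nets for finitely many continuous functions -/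
lemma exists_net (F : Z → C(K, ℝ)) (s : Finset Z) (ε : ℝ) (hε : 0 < ε) :
    ∃ D : Finset K, ∀ x, ∃ d ∈ D, ∀ z ∈ s, |F z x - F z d| ≤ ε := by
  classical
  have h1 : ∀ x : K, {y | ∀ z ∈ s, |F z y - F z x| < ε} ∈ 𝓝 x := by
    intro x
    have h2 : IsOpen {y : K | ∀ z ∈ s, |F z y - F z x| < ε} := by
      have : {y : K | ∀ z ∈ s, |F z y - F z x| < ε} = ⋂ z ∈ s, {y | |F z y - F z x| < ε} := by
        ext y; simp
      rw [this]
      refine isOpen_biInter_finset fun z _ => ?_
      exact isOpen_lt (by fun_prop) continuous_const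
    exact h2.mem_nhds (fun z _ => by simpa using hε)
  obtain ⟨D, hD⟩ := isCompact_univ.elim_nhds_subcover' (fun x _ => {y | ∀ z ∈ s, |F z y - F z x| < ε})
    (fun x _ => h1 x)
  refine ⟨D.image Subtype.val, fun x => ?_⟩
  have h3 := hD (mem_univ x)
  simp only [mem_iUnion] at h3
  obtain ⟨d, hd, hx⟩ := h3
  exact ⟨d, Finset.mem_image_of_mem _ hd, fun z hz => (hx z hz).le⟩

/-- Countable tightness: a cluster point of a set `A` of indices is the pointwise limit of a
sequence of functions with indices in `A`. -/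
theorem exists_seq (F : Z → C(K, ℝ)) (hF : ∀ x, Continuous fun z => F z x) (A : Set Z) (z₀ : Z)
    (hz₀ : z₀ ∈ closure A) :
    ∃ f : ℕ → Z, (∀ n, f n ∈ A) ∧ ∀ x, Tendsto (fun n => F (f n) x) atTop (𝓝 (F z₀ x)) := by
  classical
  -- choice of nets and of points
  choose net hnet using fun (p : Finset Z × ℕ) =>
    exists_net F p.1 (1 / ((p.2 : ℝ) + 1)) (by positivity)
  have hpt : ∀ p : Finset K × ℕ, ∃ z ∈ A, ∀ d ∈ p.1, |F z d - F z₀ d| ≤ 1 / ((p.2 : ℝ) + 1) := by
    intro p
    have h2 : {z : Z | ∀ d ∈ p.1, |F z d - F z₀ d| < 1 / ((p.2 : ℝ) + 1)} ∈ 𝓝 z₀ := by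
      have h3 : IsOpen {z : Z | ∀ d ∈ p.1, |F z d - F z₀ d| < 1 / ((p.2 : ℝ) + 1)} := by
        have : {z : Z | ∀ d ∈ p.1, |F z d - F z₀ d| < 1 / ((p.2 : ℝ) + 1)} =
            ⋂ d ∈ p.1, {z | |F z d - F z₀ d| < 1 / ((p.2 : ℝ) + 1)} := by
          ext y; simp
        rw [this]
        refine isOpen_biInter_finset fun d _ => ?_
        exact isOpen_lt (((hF d).sub continuous_const).abs) continuous_const
      exact h3.mem_nhds (fun d _ => by simpa using by positivity)
    obtain ⟨z, hz1, hz2⟩ := mem_closure_iff_nhds.1 hz₀ _ h2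
    exact ⟨z, hz2, fun d hd => (hz1 d hd).le⟩
  choose pt hptA hpt using hpt
  -- the recursion: state = (indices so far, points so far)
  let step : ℕ → Finset Z × Finset K → Finset Z × Finset K := fun n q =>
    (insert (pt (q.2 ∪ net (q.1, n), n)) q.1, q.2 ∪ net (q.1, n))
  let st : ℕ → Finset Z × Finset K := fun n => Nat.rec ({z₀}, ∅) step n
  have st_succ : ∀ n, st (n + 1) = step n (st n) := fun n => rfl
  let f : ℕ → Z := fun n => pt ((st (n + 1)).2, n)
  have hz0 : ∀ n, z₀ ∈ (st n).1 := by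
    intro n
    induction n with
    | zero => exact Finset.mem_singleton_self _
    | succ n ih => rw [st_succ]; exact Finset.mem_insert_of_mem ih
  have hfmem : ∀ n, f n ∈ (st (n + 1)).1 := by
    intro n
    rw [st_succ]
    exact Finset.mem_insert_self _ _
  have hmono1 : ∀ m n, m ≤ n → (st m).1 ⊆ (st n).1 := by
    intro m n hmn
    induction n, hmn using Nat.le_induction with
    | base => exact subset_rfl
    | succ n _ ih => rw [st_succ]; exact ih.trans (Finset.subset_insert _ _)
  have hmono2 : ∀ m n, m ≤ n → (st m).2 ⊆ (st n).2 := by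
    intro m n hmn
    induction n, hmn using Nat.le_induction with
    | base => exact subset_rfl
    | succ n _ ih => rw [st_succ]; exact ih.trans Finset.subset_union_left
  have hfA : ∀ n, f n ∈ A := fun n => hptA _
  have hf2 : ∀ n, ∀ d ∈ (st (n + 1)).2, |F (f n) d - F z₀ d| ≤ 1 / ((n : ℝ) + 1) := by
    intro n d hd
    exact hpt ((st (n + 1)).2, n) d hd
  have hnet2 : ∀ n x, ∃ d ∈ (st (n + 1)).2, ∀ z ∈ (st n).1, |F z x - F z d| ≤ 1 / ((n : ℝ) + 1) := by
    intro n x
    obtain ⟨d, hd, h⟩ := hnet ((st n).1, n) x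
    exact ⟨d, by rw [st_succ]; exact Finset.mem_union_right _ hd, h⟩
  refine ⟨f, hfA, fun x => ?_⟩
  -- convergence at x, by ultrafilters
  rw [tendsto_iff_ultrafilter]
  intro U hU
  obtain ⟨zs, -, hzs⟩ := isCompact_univ.ultrafilter_le_nhds (U.map f) (by simp)
  have hzs' : Tendsto f U (𝓝 zs) := hzs
  choose d hd hdx using fun n => hnet2 n x
  obtain ⟨xs, -, hxs⟩ := isCompact_univ.ultrafilter_le_nhds (U.map d) (by simp)
  have hxs' : Tendsto d U (𝓝 xs) := hxs
  have hinv : Tendsto (fun n : ℕ => 1 / ((n : ℝ) + 1)) U (𝓝 0) :=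
    tendsto_one_div_add_atTop_nhds_zero_nat.mono_left hU
  -- values at x and at xs agree for all indices in some state
  have hval : ∀ m, ∀ z ∈ (st m).1, F z x = F z xs := by
    intro m z hz
    have h1 : Tendsto (fun n => F z (d n)) U (𝓝 (F z xs)) := ((F z).continuous.tendsto xs).comp hxs'
    have h2 : Tendsto (fun n => F z x - F z (d n)) U (𝓝 (F z x - F z xs)) :=
      tendsto_const_nhds.sub h1
    have h3 : Tendsto (fun n => F z x - F z (d n)) U (𝓝 0) := by
      refine squeeze_zero_norm' ?_ hinv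
      have h4 : ∀ᶠ n : ℕ in (U : Filter ℕ), m ≤ n := hU (eventually_ge_atTop m)
      filter_upwards [h4] with n hn
      exact hdx n z (hmono1 m n hn hz)
    have := tendsto_nhds_unique h2 h3
    linarith
  -- the limit function agrees with `F z₀` on all chosen points
  have hD : ∀ m, ∀ e ∈ (st m).2, F zs e = F z₀ e := by
    intro m e he
    have h1 : Tendsto (fun n => F (f n) e) U (𝓝 (F zs e)) := ((hF e).tendsto zs).comp hzs'
    have h2 : Tendsto (fun n => F (f n) e - F z₀ e) U (𝓝 (F zs e - F z₀ e)) :=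
      h1.sub tendsto_const_nhds
    have h3 : Tendsto (fun n => F (f n) e - F z₀ e) U (𝓝 0) := by
      refine squeeze_zero_norm' ?_ hinv
      have h4 : ∀ᶠ n : ℕ in (U : Filter ℕ), m ≤ n := hU (eventually_ge_atTop m)
      filter_upwards [h4] with n hn
      exact hf2 n e (hmono2 m (n + 1) (by omega) he)
    have := tendsto_nhds_unique h2 h3
    linarith
  have hx1 : Tendsto (fun n => F (f n) x) U (𝓝 (F zs x)) := ((hF x).tendsto zs).comp hzs'
  have hx2 : Tendsto (fun n => F (f n) xs) U (𝓝 (F zs xs)) := ((hF xs).tendsto zs).comp hzs'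
  have hx3 : F zs x = F zs xs := by
    refine tendsto_nhds_unique hx1 (hx2.congr fun n => ?_)
    exact (hval (n + 1) (f n) (hfmem n)).symm
  have hx4 : F zs xs = F z₀ xs := by
    have h1 : Tendsto (fun n => F zs (d n)) U (𝓝 (F zs xs)) :=
      ((F zs).continuous.tendsto xs).comp hxs'
    have h2 : Tendsto (fun n => F z₀ (d n)) U (𝓝 (F z₀ xs)) :=
      ((F z₀).continuous.tendsto xs).comp hxs'
    refine tendsto_nhds_unique h1 (h2.congr fun n => ?_)
    exact (hD (n + 1) (d n) (hd n)).symm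
  have hx5 : F z₀ x = F z₀ xs := hval 0 z₀ (hz0 0)
  rw [hx5, ← hx4, ← hx3]
  exact hx1

/-- **Grothendieck's theorem.** -/
theorem continuous_functional [T2Space K] (F : Z → C(K, ℝ)) (hF : ∀ x, Continuous fun z => F z x)
    (M : ℝ) (hM : ∀ z x, |F z x| ≤ M) (L : C(K, ℝ) →L[ℝ] ℝ) : Continuous fun z => L (F z) := by
  rw [continuous_iff_continuousAt]
  intro z₀
  by_contra hcon
  rw [ContinuousAt, Metric.tendsto_nhds] at hcon
  push Not at hcon
  obtain ⟨δ, hδ, hfr⟩ := hcon
  set A : Set Z := {z | δ ≤ dist (L (F z)) (L (F z₀))} with hA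
  have hz₀ : z₀ ∈ closure A := by
    rw [mem_closure_iff_frequently]
    exact hfr
  obtain ⟨f, hfA, hf⟩ := exists_seq F hF A z₀ hz₀
  have h1 := tendsto_of_pointwise L (fun n => F (f n)) (F z₀) M (fun n x => hM _ x) hf
  rw [Metric.tendsto_atTop] at h1
  obtain ⟨N, hN⟩ := h1 δ hδ
  have h2 := hN N le_rfl
  exact absurd (hfA N) (not_le.2 h2)

end Pool.Agent.L0h88.FP
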