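import Mathlib

/-!
# Bounded pointwise convergent sequences in `C(K)` converge weakly

and continuity of functionals along separately continuous families.
-/

open Filter Topology Set MeasureTheory
open scoped NNReal ENNReal CompactlySupported BoundedContinuousFunction Pointwise

set_option linter.unusedSectionVars false
set_option linter.style.haveILetI false

namespace Pool.Agent.L0h88.FP

variable {K : Type*} [TopologicalSpace K] [CompactSpace K] [T2Space K]

/-- the values of `L` on the functions of modulus at most `f` -/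
def valSet (L : C(K, ℝ) →L[ℝ] ℝ) (f : C_c(K, ℝ≥0)) : Set ℝ :=
  {r | ∃ g : C(K, ℝ), (∀ x, |g x| ≤ (f x : ℝ)) ∧ L g = r}

lemma zero_mem_valSet (L : C(K, ℝ) →L[ℝ] ℝ) (f : C_c(K, ℝ≥0)) : (0 : ℝ) ∈ valSet L f :=
  ⟨0, fun x => by simp, map_zero L⟩

lemma exists_bound (f : C_c(K, ℝ≥0)) : ∃ M : ℝ, ∀ x, (f x : ℝ) ≤ M := by
  have h : BddAbove (range fun x => (f x : ℝ)) :=
    (isCompact_range (by fun_prop : Continuous fun x => (f x : ℝ))).bddAbove
  obtain ⟨M, hM⟩ := h
  exact ⟨M, fun x => hM ⟨x, rfl⟩⟩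

lemma bddAbove_valSet (L : C(K, ℝ) →L[ℝ] ℝ) (f : C_c(K, ℝ≥0)) : BddAbove (valSet L f) := by
  obtain ⟨M, hM⟩ := exists_bound f
  refine ⟨‖L‖ * max M 0, ?_⟩
  rintro r ⟨g, hg, rfl⟩
  refine (le_abs_self _).trans ((L.le_opNorm g).trans ?_)
  refine mul_le_mul_of_nonneg_left ?_ (norm_nonneg _)
  rw [ContinuousMap.norm_le _ (le_max_right _ _)]
  intro x
  exact (hg x).trans ((hM x).trans (le_max_left _ _))

lemma valSet_add (L : C(K, ℝ) →L[ℝ] ℝ) (f₁ f₂ : C_c(K, ℝ≥0)) :
    valSet L (f₁ + f₂) = valSet L f₁ + valSet L f₂ := by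
  ext r
  constructor
  · rintro ⟨w, hw, rfl⟩
    have hf₁ : Continuous fun x => (f₁ x : ℝ) := by fun_prop
    let u : C(K, ℝ) := ⟨fun x => max (min (w x) (f₁ x)) (-(f₁ x : ℝ)), by fun_prop⟩
    refine ⟨L u, ⟨u, fun x => ?_, rfl⟩, L (w - u), ⟨w - u, fun x => ?_, rfl⟩, ?_⟩
    · have h0 : (0 : ℝ) ≤ f₁ x := (f₁ x).2
      show |max (min (w x) (f₁ x)) (-(f₁ x : ℝ))| ≤ _
      rw [abs_le]
      constructor
      · exact le_max_right _ _
      · exact max_le (min_le_right _ _) (by linarith)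
    · have h0 : (0 : ℝ) ≤ f₁ x := (f₁ x).2
      have h1 := hw x
      have h2 : ((f₁ + f₂) x : ℝ) = (f₁ x : ℝ) + f₂ x := by simp
      rw [h2] at h1
      have h3 : (0 : ℝ) ≤ f₂ x := (f₂ x).2
      rw [abs_le] at h1
      show |w x - max (min (w x) (f₁ x)) (-(f₁ x : ℝ))| ≤ _
      rcases le_total (w x) (f₁ x) with h | h
      · rw [min_eq_left h]
        rcases le_total (w x) (-(f₁ x : ℝ)) with h' | h'
        · rw [max_eq_right h', abs_le]
          constructor <;> linarith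
        · rw [max_eq_left h', sub_self, abs_zero]
          exact h3
      · rw [min_eq_right h, max_eq_left (by linarith), abs_le]
        constructor <;> linarith
    · show L u + L (w - u) = L w
      rw [map_sub]; ring
  · rintro ⟨_, ⟨u, hu, rfl⟩, _, ⟨v, hv, rfl⟩, rfl⟩
    refine ⟨u + v, fun x => ?_, map_add L u v⟩
    have h2 : ((f₁ + f₂) x : ℝ) = (f₁ x : ℝ) + f₂ x := by simp
    rw [h2]
    exact (abs_add_le _ _).trans (add_le_add (hu x) (hv x))

lemma valSet_smul (L : C(K, ℝ) →L[ℝ] ℝ) (c : ℝ≥0) (f : C_c(K, ℝ≥0)) :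
    valSet L (c • f) = (c : ℝ) • valSet L f := by
  ext r
  constructor
  · rintro ⟨w, hw, rfl⟩
    have hc : ∀ x, ((c • f) x : ℝ) = c * f x := by
      intro x
      simp
    rcases eq_or_ne c 0 with rfl | hc0
    · have hw0 : w = 0 := by
        ext x
        have := hw x
        rw [hc] at this
        simpa using this
      rw [hw0, map_zero]
      exact ⟨0, zero_mem_valSet L f, by simp⟩
    · have hc1 : (0 : ℝ) < c := by positivity
      refine ⟨(c : ℝ)⁻¹ * L w, ⟨(c : ℝ)⁻¹ • w, fun x => ?_, ?_⟩, ?_⟩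
      · have := hw x
        rw [hc] at this
        show |(c : ℝ)⁻¹ * w x| ≤ _
        rw [abs_mul, abs_of_pos (inv_pos.2 hc1), inv_mul_le_iff₀ hc1]
        exact this
      · rw [map_smul, smul_eq_mul]
      · show (c : ℝ) * ((c : ℝ)⁻¹ * L w) = L w
        field_simp
  · rintro ⟨_, ⟨u, hu, rfl⟩, rfl⟩
    refine ⟨(c : ℝ) • u, fun x => ?_, by rw [map_smul]⟩
    have hc : ((c • f) x : ℝ) = c * f x := by simp
    rw [hc]
    show |(c : ℝ) * u x| ≤ _
    rw [abs_mul, abs_of_nonneg (NNReal.coe_nonneg c)]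
    exact mul_le_mul_of_nonneg_left (hu x) (NNReal.coe_nonneg c)

/-- the modulus of the functional `L` -/
noncomputable def modulus (L : C(K, ℝ) →L[ℝ] ℝ) : C_c(K, ℝ≥0) →ₗ[ℝ≥0] ℝ≥0 where
  toFun f := ⟨sSup (valSet L f), le_csSup (bddAbove_valSet L f) (zero_mem_valSet L f)⟩
  map_add' f₁ f₂ := by
    apply NNReal.eq
    show sSup (valSet L (f₁ + f₂)) = sSup (valSet L f₁) + sSup (valSet L f₂)
    rw [valSet_add, csSup_add ⟨0, zero_mem_valSet L f₁⟩ (bddAbove_valSet L f₁)
      ⟨0, zero_mem_valSet L f₂⟩ (bddAbove_valSet L f₂)]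
  map_smul' c f := by
    apply NNReal.eq
    show sSup (valSet L (c • f)) = (c : ℝ) * sSup (valSet L f)
    rw [valSet_smul, Real.sSup_smul_of_nonneg (NNReal.coe_nonneg c)]
    rfl

/-- a continuous function as a compactly supported one, absolute value -/
noncomputable def absC (g : C(K, ℝ)) : C_c(K, ℝ≥0) where
  toFun x := ‖g x‖₊
  continuous_toFun := by fun_prop
  hasCompactSupport' := HasCompactSupport.of_compactSpace _

lemma abs_le_modulus (L : C(K, ℝ) →L[ℝ] ℝ) (g : C(K, ℝ)) :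
    |L g| ≤ (modulus L (absC g) : ℝ) := by
  have h1 : ∀ x, |g x| ≤ ((absC g) x : ℝ) := fun x => by
    show |g x| ≤ ((‖g x‖₊ : ℝ≥0) : ℝ)
    simp
  show |L g| ≤ sSup (valSet L (absC g))
  rw [abs_le']
  constructor
  · exact le_csSup (bddAbove_valSet L _) ⟨g, h1, rfl⟩
  · refine le_csSup (bddAbove_valSet L _) ⟨-g, fun x => ?_, map_neg L g⟩
    show |-(g x)| ≤ _
    rw [abs_neg]; exact h1 x

/-- **Bounded pointwise convergence in `C(K)` implies weak convergence.** -/
theorem tendsto_of_pointwise (L : C(K, ℝ) →L[ℝ] ℝ) (h : ℕ → C(K, ℝ)) (h₀ : C(K, ℝ)) (M : ℝ)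
    (hM : ∀ n x, |h n x| ≤ M) (hlim : ∀ x, Tendsto (fun n => h n x) atTop (𝓝 (h₀ x))) :
    Tendsto (fun n => L (h n)) atTop (𝓝 (L h₀)) := by
  letI : MeasurableSpace K := borel K
  haveI : BorelSpace K := ⟨rfl⟩
  set μ := NNRealRMK.rieszMeasure (modulus L) with hμ
  have hint : ∀ f : C_c(K, ℝ≥0), ∫⁻ x, (f x : ℝ≥0∞) ∂μ = (modulus L f : ℝ≥0) := fun f =>
    NNRealRMK.lintegral_rieszMeasure (modulus L) f
  have hM0 : ∀ x, |h₀ x| ≤ M := fun x =>
    le_of_tendsto ((continuous_abs.tendsto _).comp (hlim x)) (Eventually.of_forall fun n => hM n x)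
  have hfin : μ univ < ⊤ := by
    have h1 := hint (absC 1)
    have h2 : ∫⁻ x, ((absC (1 : C(K, ℝ)) x : ℝ≥0) : ℝ≥0∞) ∂μ = μ univ := by
      rw [← lintegral_one]
      congr 1
      funext x
      show ((‖(1 : C(K, ℝ)) x‖₊ : ℝ≥0) : ℝ≥0∞) = 1
      simp
    rw [← h2, h1]
    exact ENNReal.coe_lt_top
  have key : Tendsto (fun n => ∫⁻ x, ((‖(h n - h₀) x‖₊ : ℝ≥0) : ℝ≥0∞) ∂μ) atTop (𝓝 0) := by
    have h1 : Tendsto (fun n => ∫⁻ x, ((‖(h n - h₀) x‖₊ : ℝ≥0) : ℝ≥0∞) ∂μ) atTop
        (𝓝 (∫⁻ _, 0 ∂μ)) := by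
      refine tendsto_lintegral_of_dominated_convergence (fun _ => ENNReal.ofReal (2 * M)) ?_ ?_ ?_ ?_
      · intro n
        have : Continuous fun x => ((‖(h n - h₀) x‖₊ : ℝ≥0) : ℝ≥0∞) := by fun_prop
        exact this.measurable
      · intro n
        refine Eventually.of_forall fun x => ?_
        show ((‖(h n - h₀) x‖₊ : ℝ≥0) : ℝ≥0∞) ≤ ENNReal.ofReal (2 * M)
        rw [ENNReal.le_ofReal_iff_toReal_le ENNReal.coe_ne_top]
        · show ‖(h n - h₀) x‖ ≤ 2 * M
          show |h n x - h₀ x| ≤ 2 * M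
          have := abs_sub (h n x) (h₀ x)
          linarith [hM n x, hM0 x]
        · linarith [(abs_nonneg _).trans (hM0 x)]
      · rw [lintegral_const]
        exact (ENNReal.mul_lt_top ENNReal.ofReal_lt_top hfin).ne
      · refine Eventually.of_forall fun x => ?_
        have h2 : Tendsto (fun n => ‖(h n - h₀) x‖₊) atTop (𝓝 0) := by
          have h3 : Tendsto (fun n => h n x - h₀ x) atTop (𝓝 (h₀ x - h₀ x)) :=
            (hlim x).sub tendsto_const_nhds
          rw [sub_self] at h3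
          have h4 := (continuous_nnnorm.tendsto _).comp h3
          rw [nnnorm_zero] at h4
          exact h4
        have h5 := (ENNReal.continuous_coe.tendsto 0).comp h2
        exact h5
    simpa using h1
  have key2 : Tendsto (fun n => ((modulus L (absC (h n - h₀)) : ℝ≥0) : ℝ≥0∞)) atTop (𝓝 0) := by
    refine key.congr fun n => ?_
    exact hint (absC (h n - h₀))
  have key3 : Tendsto (fun n => (modulus L (absC (h n - h₀)) : ℝ)) atTop (𝓝 0) := by
    have h6 := (ENNReal.tendsto_toReal ENNReal.zero_ne_top).comp key2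
    exact h6
  rw [tendsto_iff_norm_sub_tendsto_zero]
  refine squeeze_zero (fun n => norm_nonneg _) (fun n => ?_) key3
  rw [← map_sub]
  exact abs_le_modulus L _

end Pool.Agent.L0h88.FP
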