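import Pool.Agent.L0h88.FP.Core
import Pool.Agent.L0h88.FP.Groth

/-!
# Weak topologies of locally convex spaces
-/

open Filter Topology Set

set_option linter.unusedSectionVars false

namespace Pool.Agent.L0h88.FP

section lcs

variable {𝕜 E : Type*} [RCLike 𝕜] [AddCommGroup E] [Module 𝕜 E] [Module ℝ E] [IsScalarTower ℝ 𝕜 E]
  [TopologicalSpace E] [T2Space E] {ι : Type*} {Q : SeminormFamily 𝕜 E ι}

/-- the seminorm `Q i` on the weak space, with real scalars -/
noncomputable def wsemi (Q : SeminormFamily 𝕜 E ι) (i : ι) : Seminorm ℝ (WeakSpace 𝕜 E) where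
  toFun x := Q i ((toWeakSpace 𝕜 E).symm x)
  map_zero' := by simp
  add_le' x y := by rw [map_add]; exact map_add_le_add (Q i) _ _
  neg' x := by rw [map_neg, map_neg_eq_map]
  smul' r x := by
    have h : (toWeakSpace 𝕜 E).symm (r • x) = r • (toWeakSpace 𝕜 E).symm x := rfl
    rw [h, ← algebraMap_smul 𝕜 r, map_smul_eq_mul]
    simp

lemma wsemi_apply (Q : SeminormFamily 𝕜 E ι) (i : ι) (x : WeakSpace 𝕜 E) :
    wsemi Q i x = Q i ((toWeakSpace 𝕜 E).symm x) := rfl

lemma t2_weak (hQ : WithSeminorms Q) : T2Space (WeakSpace 𝕜 E) := by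
  haveI := hQ.topologicalAddGroup
  haveI := hQ.continuousSMul
  haveI := hQ.toLocallyConvexSpace
  haveI : SeparatingDual 𝕜 E := by
    refine ⟨fun x hx => ?_⟩
    obtain ⟨f, hf⟩ := RCLike.geometric_hahn_banach_point_point (𝕜 := 𝕜) hx
    exact ⟨f, fun h => by simp [h] at hf⟩
  infer_instance

lemma wsemi_separating (hQ : WithSeminorms Q) (x : WeakSpace 𝕜 E) (hx : ∀ i, wsemi Q i x = 0) :
    x = 0 := by
  by_contra hne
  have h1 : (toWeakSpace 𝕜 E).symm x ≠ 0 := by
    intro h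
    exact hne ((LinearEquiv.map_eq_zero_iff _).1 h)
  obtain ⟨i, hi⟩ := hQ.separating_of_T1 _ h1
  exact hi (hx i)

lemma isClosed_wsemi (hQ : WithSeminorms Q) (i : ι) (r : ℝ) :
    IsClosed {q : WeakSpace 𝕜 E × WeakSpace 𝕜 E | wsemi Q i (q.1 - q.2) ≤ r} := by
  haveI := hQ.topologicalAddGroup
  haveI := hQ.continuousSMul
  haveI := hQ.toLocallyConvexSpace
  have h1 : IsClosed {x : E | Q i x ≤ r} :=
    isClosed_le (hQ.continuous_seminorm i) continuous_const
  have h2 : Convex ℝ {x : E | Q i x ≤ r} := by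
    intro x hx y hy a b ha hb hab
    have h3 : Q i (a • x + b • y) ≤ a * Q i x + b * Q i y := by
      refine (map_add_le_add (Q i) _ _).trans ?_
      rw [← algebraMap_smul 𝕜 a, ← algebraMap_smul 𝕜 b, map_smul_eq_mul, map_smul_eq_mul]
      simp [abs_of_nonneg ha, abs_of_nonneg hb]
    have h4 : a * Q i x + b * Q i y ≤ a * r + b * r :=
      add_le_add (mul_le_mul_of_nonneg_left hx ha) (mul_le_mul_of_nonneg_left hy hb)
    have h5 : a * r + b * r = r := by rw [← add_mul, hab, one_mul]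
    exact h3.trans (h4.trans h5.le)
  have h3 : IsClosed (toWeakSpace 𝕜 E '' {x : E | Q i x ≤ r}) := by
    have := h2.toWeakSpace_closure 𝕜
    rw [h1.closure_eq] at this
    rw [this]
    exact isClosed_closure
  have h4 : {q : WeakSpace 𝕜 E × WeakSpace 𝕜 E | wsemi Q i (q.1 - q.2) ≤ r} =
      (fun q => q.1 - q.2) ⁻¹' (toWeakSpace 𝕜 E '' {x : E | Q i x ≤ r}) := by
    ext q
    simp only [mem_setOf_eq, mem_preimage, mem_image]
    constructor
    · intro h
      exact ⟨_, h, LinearEquiv.apply_symm_apply _ _⟩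
    · rintro ⟨x, hx, hx'⟩
      rw [← hx', wsemi_apply, LinearEquiv.symm_apply_apply]
      exact hx
  rw [h4]
  exact h3.preimage (continuous_fst.sub continuous_snd)

lemma mazur_wsemi (hQ : WithSeminorms Q) (i : ι) (A : Set (WeakSpace 𝕜 E)) :
    ∀ x ∈ closure A, ∀ ε > 0, ∃ c ∈ convexHull ℝ A, wsemi Q i (x - c) < ε := by
  haveI := hQ.topologicalAddGroup
  haveI := hQ.continuousSMul
  haveI := hQ.toLocallyConvexSpace
  intro x hx ε hε
  set s : Set E := (toWeakSpace 𝕜 E) ⁻¹' (convexHull ℝ A) with hs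
  have hsc : Convex ℝ s := by
    intro a ha b hb u v hu hv huv
    exact convex_convexHull ℝ A ha hb hu hv huv
  have h1 : toWeakSpace 𝕜 E '' s = convexHull ℝ A :=
    image_preimage_eq _ (toWeakSpace 𝕜 E).surjective
  have h2 : x ∈ closure (toWeakSpace 𝕜 E '' s) := by
    rw [h1]
    exact closure_mono (subset_convexHull ℝ A) hx
  rw [← hsc.toWeakSpace_closure 𝕜] at h2
  obtain ⟨x', hx', rfl⟩ := h2
  have h3 : IsOpen {y : E | Q i (x' - y) < ε} := by
    refine isOpen_lt ?_ continuous_const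
    exact (hQ.continuous_seminorm i).comp (continuous_const.sub continuous_id)
  obtain ⟨c, hc1, hc2⟩ := mem_closure_iff.1 hx' _ h3 (by simpa using hε)
  refine ⟨toWeakSpace 𝕜 E c, hc2, ?_⟩
  rw [← map_sub, wsemi_apply, LinearEquiv.symm_apply_apply]
  exact hc1

end lcs

end Pool.Agent.L0h88.FP
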